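import Pool.Agent.H121.ME.Iface

set_option autoImplicit false

open scoped BigOperators Topology
open Filter

namespace Pool.Agent.H734.ME

theorem rpow_dom {c s : ℝ} (hc : 0 ≤ c) (h1 : 1 / 2 ≤ s) (h2 : s ≤ 1) :
    c ^ s ≤ c ^ (1 / 2 : ℝ) + c ^ (1 : ℝ) := by
  rcases le_total c 1 with h | h
  · have h3 : c ^ s ≤ c ^ (1 / 2 : ℝ) := by
      rcases hc.eq_or_lt with h0 | h0
      · rw [← h0, Real.zero_rpow (by linarith : s ≠ 0), Real.zero_rpow (by norm_num)]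
      · exact Real.rpow_le_rpow_of_exponent_ge h0 h h1
    exact le_add_of_le_of_nonneg h3 (Real.rpow_nonneg hc _)
  · have h3 : c ^ s ≤ c ^ (1 : ℝ) := Real.rpow_le_rpow_of_exponent_le h h2
    exact le_add_of_nonneg_of_le (Real.rpow_nonneg hc _) h3

theorem sig_core (F : Type) (c : F → ℝ) (hc : ∀ q, 0 ≤ c q)
    (hs : ∀ p : ℝ, 0 < p → Summable fun q => c q ^ p) (d : ℕ) (a : ℝ) (ha : 4 * d + ∑' q, c q < a) :
    ∃ s : ℝ, 0 < s ∧ s < 1 ∧ ((2 : ℝ) * d) ^ s + 2 * d + ∑' q, c q ^ s < a ^ s := by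
  have hev : ∀ᶠ s : ℝ in 𝓝[<] 1, 1 / 2 < s ∧ s < 1 := by
    have h1 : ∀ᶠ s : ℝ in 𝓝[<] 1, 1 / 2 < s := by
      apply mem_nhdsWithin_of_mem_nhds
      exact lt_mem_nhds (by norm_num)
    exact h1.and self_mem_nhdsWithin
  have hsum : Tendsto (fun s : ℝ => ∑' q, c q ^ s) (𝓝[<] 1) (𝓝 (∑' q, c q ^ (1 : ℝ))) := by
    apply tendsto_tsum_of_dominated_convergence (bound := fun q => c q ^ (1 / 2 : ℝ) + c q ^ (1 : ℝ))
    · exact (hs (1 / 2) (by norm_num)).add (hs 1 one_pos)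
    · intro q
      exact (Real.continuousAt_const_rpow' (a := c q) (one_ne_zero)).tendsto.mono_left nhdsWithin_le_nhds
    · filter_upwards [hev] with s h q
      rw [Real.norm_of_nonneg (Real.rpow_nonneg (hc q) _)]
      exact rpow_dom (hc q) h.1.le h.2.le
  have h2 : Tendsto (fun s : ℝ => ((2 : ℝ) * d) ^ s) (𝓝[<] 1) (𝓝 (((2 : ℝ) * d) ^ (1 : ℝ))) :=
    (Real.continuousAt_const_rpow' (one_ne_zero)).tendsto.mono_left nhdsWithin_le_nhds
  have h3 : Tendsto (fun s : ℝ => a ^ s) (𝓝[<] 1) (𝓝 (a ^ (1 : ℝ))) :=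
    (Real.continuousAt_const_rpow' (one_ne_zero)).tendsto.mono_left nhdsWithin_le_nhds
  have h4 := (h2.add_const (2 * (d : ℝ))).add hsum
  simp only [Real.rpow_one] at h3 h4
  have h5 : (2 : ℝ) * d + 2 * d + ∑' q, c q < a := by linarith
  have h6 := h4.eventually_lt h3 h5
  obtain ⟨s, hs1, hs2⟩ := (h6.and hev).exists
  exact ⟨s, by linarith [hs2.1], hs2.2, hs1⟩

/-- ME-SIG -/
theorem sig : Pool.Agent.H121.ME.S_sig := fun F _ c hc hs d a ha => sig_core F c hc hs d a ha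

end Pool.Agent.H734.ME
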